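import Pool.Agent.Y924.UF.Stm

/-!
# Project UF of helper924, part FIN (helper606)

The finite subsets of `F_p((t))` are the bounded uniformly discrete ones.
-/

set_option autoImplicit false

namespace Pool.Agent.Y606.UF

open Pool.Agent.Y924.UF

variable {p : ℕ} [Fact p.Prime]

theorem mem_OO (x : LaurentSeries (ZMod p)) :
    x ∈ OO p ↔ ∀ n : ℤ, n < 0 → x.coeff n = 0 := by
  constructor
  · rintro ⟨f, rfl⟩ n hn
    rw [LaurentSeries.coe_algebraMap]
    rw [PowerSeries.coeff_coe, if_pos hn]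
  · intro h
    refine ⟨PowerSeries.mk fun n => x.coeff (n : ℤ), ?_⟩
    ext n
    rw [LaurentSeries.coe_algebraMap, PowerSeries.coeff_coe]
    by_cases hn : n < 0
    · rw [if_pos hn, h n hn]
    · rw [if_neg hn, PowerSeries.coeff_mk]
      congr 1
      omega

theorem below_iff (x : LaurentSeries (ZMod p)) (m : ℤ) :
    (∀ n : ℤ, n < m → x.coeff n = 0) ↔ x = 0 ∨ m ≤ x.order := by
  constructor
  · intro h
    by_cases hx : x = 0
    · exact Or.inl hx
    · right
      by_contra hlt
      push Not at hlt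
      exact HahnSeries.coeff_order_eq_zero.not.mpr hx (h _ hlt)
  · rintro (rfl | hm) n hn
    · simp
    · exact HahnSeries.coeff_eq_zero_of_lt_order (lt_of_lt_of_le hn hm)

theorem zero_OO : (0 : LaurentSeries (ZMod p)) ∈ OO p := ⟨0, by simp⟩

theorem mul_OO {b : LaurentSeries (ZMod p)} (hb : b ≠ 0) (d : LaurentSeries (ZMod p)) :
    (∃ z, z ∈ OO p ∧ b * z = d) ↔ ∀ n : ℤ, n < b.order → d.coeff n = 0 := by
  rw [below_iff]
  constructor
  · rintro ⟨z, hz, rfl⟩
    rw [mem_OO, below_iff] at hz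
    by_cases hz0 : z = 0
    · left; simp [hz0]
    · rcases hz with hz | hz
      · exact absurd hz hz0
      · right
        rw [HahnSeries.order_mul hb hz0]
        linarith
  · intro hd
    by_cases hd0 : d = 0
    · exact ⟨0, zero_OO, by simp [hd0]⟩
    · rcases hd with hd | hd
      · exact absurd hd hd0
      · have hz0 : b⁻¹ * d ≠ 0 := mul_ne_zero (inv_ne_zero hb) hd0
        have hm : b * (b⁻¹ * d) = d := by rw [← mul_assoc, mul_inv_cancel₀ hb, one_mul]
        refine ⟨b⁻¹ * d, ?_, hm⟩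
        rw [mem_OO, below_iff]
        right
        have h := HahnSeries.order_mul hb hz0
        rw [hm] at h
        linarith

theorem t_FIN : S_FIN := by
  intro p _ S
  constructor
  · intro hS
    obtain ⟨M1, hM1⟩ := (hS.image fun x : LaurentSeries (ZMod p) => x.order).bddBelow
    obtain ⟨M2, hM2⟩ := ((hS.prod hS).image
      fun q : LaurentSeries (ZMod p) × LaurentSeries (ZMod p) => (q.1 - q.2).order).bddAbove
    have h1 : (1 : ZMod p) ≠ 0 := one_ne_zero
    have hb : HahnSeries.single (M2 + 1) (1 : ZMod p) ≠ 0 := HahnSeries.single_ne_zero h1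
    have hc : HahnSeries.single M1 (1 : ZMod p) ≠ 0 := HahnSeries.single_ne_zero h1
    refine ⟨HahnSeries.single (M2 + 1) 1, HahnSeries.single M1 1, hb, hc, ?_, ?_⟩
    · intro x hx
      rw [mul_OO hc, below_iff, HahnSeries.order_single h1]
      exact Or.inr (hM1 ⟨x, hx, rfl⟩)
    · rintro x y hx hy ⟨z, y', hz, hzy, hyx⟩
      have hd : ∃ z, z ∈ OO p ∧ HahnSeries.single (M2 + 1) (1 : ZMod p) * z = x - y :=
        ⟨z, hz, by rw [hzy, ← hyx]; ring⟩
      rw [mul_OO hb, below_iff, HahnSeries.order_single h1] at hd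
      rcases hd with hd | hd
      · exact sub_eq_zero.mp hd
      · have h2 : (x - y).order ≤ M2 := hM2 ⟨(x, y), ⟨hx, hy⟩, rfl⟩
        omega
  · rintro ⟨b, c, hb, hc, h1, h2⟩
    have h1' : ∀ x, x ∈ S → ∀ n : ℤ, n < c.order → x.coeff n = 0 := fun x hx =>
      (mul_OO hc x).mp (h1 x hx)
    refine Set.Finite.of_finite_image (f := fun (x : LaurentSeries (ZMod p))
      (n : Finset.Ico c.order b.order) => x.coeff (n : ℤ)) (Set.toFinite _) ?_
    intro x hx y hy hxy
    apply h2 x y hx hy
    have h3 : ∀ n : ℤ, n < b.order → (x - y).coeff n = 0 := by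
      intro n hn
      rw [HahnSeries.coeff_sub]
      by_cases hnc : n < c.order
      · rw [h1' x hx n hnc, h1' y hy n hnc, sub_zero]
      · have h4 := congrFun hxy ⟨n, Finset.mem_Ico.mpr ⟨by omega, hn⟩⟩
        simp only at h4
        rw [h4, sub_self]
    obtain ⟨z, hz, hzd⟩ := (mul_OO hb (x - y)).mpr h3
    exact ⟨z, x - y, hz, hzd, by ring⟩

end Pool.Agent.Y606.UF
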